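import Pool.Agent.Helper61.QE.St3
import Pool.Agent.Helper68.QC.Cal

/-!
# Project QD, PART E, module NGF
-/

open MeasureTheory Set Filter Topology Complex
open scoped ContDiff ComplexConjugate ENNReal

namespace Pool.Agent.Helper15.QE

open Pool.Agent.Helper68.QC Pool.Agent.Helper61.QE

theorem mem_D (z : ℂ) : z ∈ D ↔ ‖z‖ < 1 := by simp [D]

theorem mob_mem (hSUB : StSUB) {A : SL} (hA : SU A) {z : ℂ} (hz : z ∈ D) : mob A z ∈ D := by
  obtain ⟨-, -, -, h4, h5, -⟩ := hSUB
  rw [mem_D] at hz ⊢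
  have hd : den A z ≠ 0 := h4 A hA z hz.le
  have h := h5 A hA z hd
  have h1 : 0 < 1 - ‖z‖ ^ 2 := by nlinarith [norm_nonneg z]
  have h2 : 0 < ‖den A z‖ ^ 2 := by positivity
  have h3 : 0 < 1 - ‖mob A z‖ ^ 2 := by
    by_contra hcon
    have : (1 - ‖mob A z‖ ^ 2) * ‖den A z‖ ^ 2 ≤ 0 :=
      mul_nonpos_of_nonpos_of_nonneg (not_lt.1 hcon) h2.le
    linarith
  nlinarith [norm_nonneg (mob A z)]

theorem den_deriv (A : SL) (z : ℂ) : HasDerivAt (den A) (A 1 0) z := by
  unfold den
  have := ((hasDerivAt_id z).const_mul (A 1 0)).add_const (A 1 1)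
  simpa using this

theorem P_trans (hSUB : StSUB) {A : SL} (hA : SU A) {g : ℂ → ℂ} (hg : DifferentiableOn ℂ g D)
    (hg' : ∀ z ∈ D, deriv g z ≠ 0) {α β : ℂ} (h : ∀ z ∈ D, g (mob A z) = α * g z + β) {z : ℂ}
    (hz : z ∈ D) :
    deriv (deriv g) (mob A z) / (2 * deriv g (mob A z)) =
      den A z ^ 2 * (deriv (deriv g) z / (2 * deriv g z)) + A 1 0 * den A z := by
  have hDo : IsOpen (D : Set ℂ) := Metric.isOpen_ball
  have hSUB' := hSUB
  obtain ⟨-, h2, -, h4, -⟩ := hSUB'
  have hden : ∀ z ∈ D, den A z ≠ 0 := fun z hz => h4 A hA z ((mem_D z).1 hz).le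
  have hgd : DifferentiableOn ℂ (deriv g) D := hg.deriv hDo
  have e1 : ∀ z ∈ D, deriv g (mob A z) = α * deriv g z * den A z ^ 2 := by
    intro z hz
    have a1 : HasDerivAt g (deriv g (mob A z)) (mob A z) :=
      (hg.differentiableAt (hDo.mem_nhds (mob_mem hSUB hA hz))).hasDerivAt
    have a2 := a1.comp z (h2 A z (hden z hz))
    have a3 : HasDerivAt (fun z => α * g z + β) (α * deriv g z) z :=
      ((hg.differentiableAt (hDo.mem_nhds hz)).hasDerivAt.const_mul α).add_const β
    have a4 : HasDerivAt (g ∘ mob A) (α * deriv g z) z := by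
      refine a3.congr_of_eventuallyEq ?_
      filter_upwards [hDo.mem_nhds hz] with w hw
      exact h w hw
    have a5 := a2.unique a4
    have hd := hden z hz
    field_simp at a5
    rw [a5]
    ring
  have e2 : ∀ z ∈ D, deriv (deriv g) (mob A z) =
      α * deriv (deriv g) z * den A z ^ 4 + 2 * α * A 1 0 * deriv g z * den A z ^ 3 := by
    intro z hz
    have a1 : HasDerivAt (deriv g) (deriv (deriv g) (mob A z)) (mob A z) :=
      (hgd.differentiableAt (hDo.mem_nhds (mob_mem hSUB hA hz))).hasDerivAt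
    have a2 := a1.comp z (h2 A z (hden z hz))
    have a3 : HasDerivAt (fun z => α * deriv g z * den A z ^ 2)
        (α * deriv (deriv g) z * den A z ^ 2 + α * deriv g z * (2 * den A z * A 1 0)) z := by
      have b1 := ((hgd.differentiableAt (hDo.mem_nhds hz)).hasDerivAt.const_mul α)
      have b2 := (den_deriv A z).pow 2
      have b3 := b1.mul b2
      convert! b3 using 1
      simp
    have a4 : HasDerivAt (deriv g ∘ mob A)
        (α * deriv (deriv g) z * den A z ^ 2 + α * deriv g z * (2 * den A z * A 1 0)) z := by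
      refine a3.congr_of_eventuallyEq ?_
      filter_upwards [hDo.mem_nhds hz] with w hw
      exact e1 w hw
    have a5 := a2.unique a4
    have hd := hden z hz
    field_simp at a5
    rw [a5]
    ring
  have hα : α ≠ 0 := by
    intro h0
    have := e1 z hz
    rw [h0, zero_mul, zero_mul] at this
    exact hg' _ (mob_mem hSUB hA hz) this
  have hd := hden z hz
  have hgz := hg' z hz
  rw [e1 z hz, e2 z hz]
  field_simp

theorem Q_trans (hSUB : StSUB) {A : SL} (hA : SU A) {z : ℂ} (hz : z ∈ D) :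
    conj (mob A z) / (1 - mob A z * conj (mob A z)) =
      den A z ^ 2 * (conj z / (1 - z * conj z)) + A 1 0 * den A z := by
  obtain ⟨-, -, -, h4, h5, -⟩ := hSUB
  rw [mem_D] at hz
  have hd : den A z ≠ 0 := h4 A hA z hz.le
  have h := h5 A hA z hd
  have h1 : (1 - ‖z‖ ^ 2 : ℝ) ≠ 0 := by nlinarith [norm_nonneg z]
  have hmm : ∀ w : ℂ, w * conj w = ((‖w‖ ^ 2 : ℝ) : ℂ) := by
    intro w
    rw [Complex.mul_conj, Complex.normSq_eq_norm_sq]
  have h1' : (1 - z * conj z : ℂ) ≠ 0 := by
    rw [hmm]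
    exact_mod_cast h1
  have hc : (1 - mob A z * conj (mob A z)) * (den A z * conj (den A z)) = 1 - z * conj z := by
    rw [hmm, hmm, hmm]
    exact_mod_cast h
  have hcd : conj (den A z) ≠ 0 := by simpa using hd
  have h2 : (1 - mob A z * conj (mob A z) : ℂ) ≠ 0 := by
    intro h0
    rw [h0, zero_mul] at hc
    exact h1' hc.symm
  obtain ⟨ha, hb⟩ := hA
  have e1 : conj (mob A z) * conj (den A z) = A 1 1 * conj z + A 1 0 := by
    rw [← map_mul]
    have : mob A z * den A z = A 0 0 * z + A 0 1 := by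
      unfold mob
      field_simp
    rw [this, map_add, map_mul, ← ha, ← hb]
  rw [div_eq_iff h2]
  have e2 : conj z / (1 - z * conj z) * (1 - z * conj z) = conj z := div_mul_cancel₀ _ h1'
  apply mul_right_cancel₀ hcd
  rw [e1]
  have e3 : (den A z ^ 2 * (conj z / (1 - z * conj z)) + A 1 0 * den A z) *
      (1 - mob A z * conj (mob A z)) * conj (den A z) =
      den A z * (conj z / (1 - z * conj z)) * ((1 - mob A z * conj (mob A z)) *
        (den A z * conj (den A z))) + A 1 0 * ((1 - mob A z * conj (mob A z)) *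
        (den A z * conj (den A z))) := by ring
  rw [e3, hc, mul_assoc, e2]
  unfold den
  ring

theorem one_sub_ne {z : ℂ} (hz : z ∈ D) : (1 - z * conj z : ℂ) ≠ 0 := by
  rw [mem_D] at hz
  rw [Complex.mul_conj, Complex.normSq_eq_norm_sq]
  have h1 : (1 - ‖z‖ ^ 2 : ℝ) ≠ 0 := by nlinarith [norm_nonneg z]
  exact_mod_cast h1

theorem Q_smooth : ContDiffOn ℝ 1 (fun z : ℂ => conj z / (1 - z * conj z)) D := by
  have hc : ContDiff ℝ 1 (fun z : ℂ => conj z) := Complex.conjCLE.contDiff
  have hn : ContDiff ℝ 1 (fun z : ℂ => 1 - z * conj z) := contDiff_const.sub (contDiff_id.mul hc)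
  have h2 : ContDiffOn ℝ 1 (fun z : ℂ => (1 - z * conj z)⁻¹) D :=
    hn.contDiffOn.inv (fun z hz => one_sub_ne hz)
  have h1 : ContDiffOn ℝ 1 (fun z : ℂ => conj z * (1 - z * conj z)⁻¹) D := hc.contDiffOn.mul h2
  have e : (fun z : ℂ => conj z / (1 - z * conj z)) = fun z => conj z * (1 - z * conj z)⁻¹ := by
    funext z
    rw [div_eq_mul_inv]
  rw [e]
  exact h1

theorem Q_dzb {z : ℂ} (hz : z ∈ D) :
    dzb (fun z : ℂ => conj z / (1 - z * conj z)) z = 1 / (1 - z * conj z) ^ 2 := by
  have hDo : IsOpen (D : Set ℂ) := Metric.isOpen_ball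
  have hn := one_sub_ne hz
  have hc : Differentiable ℝ (fun z : ℂ => conj z) := Complex.conjCLE.differentiable
  have hid : DifferentiableAt ℝ (fun z : ℂ => z) z := differentiableAt_id
  have hQ : DifferentiableAt ℝ (fun z : ℂ => conj z / (1 - z * conj z)) z :=
    (Q_smooth.differentiableOn (by simp)).differentiableAt (hDo.mem_nhds hz)
  have hm : DifferentiableAt ℝ (fun z : ℂ => z * conj z) z := hid.mul (hc z)
  have hN : DifferentiableAt ℝ (fun z : ℂ => 1 - z * conj z) z := (differentiableAt_const _).sub hm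
  have c1 : dzb (fun z : ℂ => conj z) z = 1 := by
    have := dzb_conj (f := fun z : ℂ => z) hid
    rw [this, dz_holo (differentiableAt_fun_id)]
    simp
  have c2 : dzb (fun z : ℂ => z * conj z) z = z := by
    rw [dzb_mul hid (hc z), c1, dzb_holo (differentiableAt_fun_id)]
    simp
  have c3 : dzb (fun z : ℂ => 1 - z * conj z) z = -z := by
    rw [dzb_sub (differentiableAt_const _) hm, c2, dzb_holo (differentiableAt_const _)]
    simp
  have c4 := dzb_mul hQ hN
  rw [c3] at c4
  have c5 : dzb (fun x : ℂ => conj x / (1 - x * conj x) * (1 - x * conj x)) z = 1 := by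
    have e : (fun x : ℂ => conj x / (1 - x * conj x) * (1 - x * conj x)) =ᶠ[𝓝 z]
        fun x => conj x := by
      filter_upwards [hDo.mem_nhds hz] with w hw
      exact div_mul_cancel₀ _ (one_sub_ne hw)
    refine Eq.trans ?_ c1
    unfold dzb
    rw [e.fderiv_eq]
  rw [c5] at c4
  field_simp
  field_simp at c4
  linear_combination -c4

/-- Module NGF. -/
theorem pNGF (hSUB : StSUB) (hFDX : StFDX) (hPUX : StPUX) (hUNW : StUNW) : StNGF := by
  intro Γ _ s hs g hg hg' hAB
  obtain ⟨F, hF⟩ := hFDX Γ s hs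
  obtain ⟨χ, hχ⟩ := hPUX Γ s hs
  obtain ⟨hU, -⟩ := hUNW Γ s F χ hs hF hχ
  have hDo : IsOpen (D : Set ℂ) := Metric.isOpen_ball
  have hgd : DifferentiableOn ℂ (deriv g) D := hg.deriv hDo
  have hgdd : DifferentiableOn ℂ (deriv (deriv g)) D := hgd.deriv hDo
  set P : ℂ → ℂ := fun z => deriv (deriv g) z / (2 * deriv g z) with hP
  set Q : ℂ → ℂ := fun z => conj z / (1 - z * conj z) with hQ
  have hPd : DifferentiableOn ℂ P D := by
    refine hgdd.div (hgd.const_mul 2) ?_
    intro z hz
    exact mul_ne_zero two_ne_zero (hg' z hz)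
  have hPs : ContDiffOn ℝ 1 P D := by
    have : ContDiffOn ℂ 1 P D := hPd.contDiffOn hDo
    exact this.restrict_scalars ℝ
  have hVs : ContDiffOn ℝ 1 (fun z => P z - Q z) D := hPs.sub Q_smooth
  have hzero := hU (fun z => P z - Q z) hVs.continuousOn (by
    intro γ z hz
    obtain ⟨α, β, hαβ⟩ := hAB γ
    have e1 := P_trans hSUB (hs.su γ) hg hg' hαβ hz
    have e2 := Q_trans hSUB (hs.su γ) hz
    simp only [hP, hQ]
    rw [e1, e2]
    ring)
  -- the test function
  have hT : Tst D (fun w => (χ w : ℂ)) := by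
    refine ⟨Complex.ofRealCLM.contDiff.comp hχ.smooth, hχ.cpt.comp_left (g := fun x : ℝ => (x : ℂ))
      (by simp), ?_⟩
    refine Subset.trans ?_ hχ.sub
    refine closure_mono ?_
    intro z hz
    simp only [Function.mem_support, ne_eq, Complex.ofReal_eq_zero] at hz
    exact hz
  rw [ibpOn_dzb hDo hVs hT, neg_eq_zero] at hzero
  -- the real integrand
  set k : ℂ → ℝ := fun z => χ z / (1 - ‖z‖ ^ 2) ^ 2 with hk
  have hkc : Continuous k := by
    rw [continuous_iff_continuousAt]
    intro z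
    by_cases hz : z ∈ tsupport χ
    · have hzD := hχ.sub hz
      refine hχ.smooth.continuous.continuousAt.div (by fun_prop) ?_
      rw [mem_D] at hzD
      have : (1 - ‖z‖ ^ 2 : ℝ) ≠ 0 := by nlinarith [norm_nonneg z]
      positivity
    · have h0 : χ =ᶠ[𝓝 z] 0 := notMem_tsupport_iff_eventuallyEq.1 hz
      refine ContinuousAt.congr (f := fun _ => (0 : ℝ)) continuousAt_const ?_
      filter_upwards [h0] with x hx
      simp [hk, hx]
  have hksupp : HasCompactSupport k := by
    refine hχ.cpt.mono ?_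
    intro z hz
    simp only [Function.mem_support, hk] at hz ⊢
    intro h0
    rw [h0, zero_div] at hz
    exact hz rfl
  have hk0 : 0 ≤ k := by
    intro z
    exact div_nonneg (hχ.nn z) (by positivity)
  obtain ⟨z0, hz0⟩ : ∃ z, χ z ≠ 0 := by
    by_contra hcon
    push Not at hcon
    have := hχ.sum 0 (by simp [D])
    simp [hcon] at this
  have hk1 : k z0 ≠ 0 := by
    have hz0D : z0 ∈ D := hχ.sub (subset_tsupport _ hz0)
    rw [mem_D] at hz0D
    have : (1 - ‖z0‖ ^ 2 : ℝ) ≠ 0 := by nlinarith [norm_nonneg z0]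
    exact div_ne_zero hz0 (by positivity)
  have hpos : 0 < ∫ z, k z := hkc.integral_pos_of_hasCompactSupport_nonneg_nonzero hksupp hk0 hk1
  have heq : ∫ z, dzb (fun z => P z - Q z) z * (χ z : ℂ) = ∫ z, (((-k z : ℝ)) : ℂ) := by
    apply integral_congr_ae
    refine Eventually.of_forall fun z => ?_
    simp only
    by_cases hz : z ∈ D
    · have e0 : dzb Q z = 1 / (1 - z * conj z) ^ 2 := Q_dzb hz
      have e1 : dzb (fun z => P z - Q z) z = -(1 / (1 - z * conj z) ^ 2) := by
        rw [dzb_sub ((hPs.differentiableOn (by simp)).differentiableAt (hDo.mem_nhds hz))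
          ((Q_smooth.differentiableOn (by simp)).differentiableAt (hDo.mem_nhds hz)), e0,
          dzb_holo (hPd.differentiableAt (hDo.mem_nhds hz)), zero_sub]
      rw [e1, Complex.mul_conj, Complex.normSq_eq_norm_sq, hk]
      push_cast
      ring
    · have h0 : χ z = 0 := by
        by_contra h1
        exact hz (hχ.sub (subset_tsupport _ h1))
      simp [hk, h0]
  have h1 : ∫ z, (((-k z : ℝ)) : ℂ) = ((∫ z, -k z : ℝ) : ℂ) := integral_ofReal
  rw [heq, h1, integral_neg] at hzero
  have h2 : -∫ z, k z = 0 := by exact_mod_cast hzero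
  linarith

end Pool.Agent.Helper15.QE
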